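import Pool.Agent.Helper18.UW.GoalsA
import Pool.Agent.Helper43.Ah.Good
import Pool.Agent.Helper18.CuspFinish

/-!
# Project UW (MP_d3128a_ag), packet CI: Case I
-/

set_option autoImplicit false

namespace Pool.Agent.Helper93.UW

open Finset
open Pool.Agent.Lead.Sh
open Pool.Agent.Helper18.EW
open Pool.Agent.Helper18.UW

theorem two_ch (n : ℕ) : 2 * (n + 1).choose 2 = n * (n + 1) := by
  induction n with
  | zero => rfl
  | succ n ih =>
    have : (n + 1 + 1).choose 2 = (n + 1).choose 1 + (n + 1).choose 2 := Nat.choose_succ_succ _ _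
    rw [this, Nat.choose_one_right]
    ring_nf
    ring_nf at ih
    omega

theorem ch_le_sq (n : ℕ) : (n + 1).choose 2 ≤ n ^ 2 := by
  have h := two_ch n
  rcases Nat.eq_zero_or_pos n with h0 | h0
  · subst h0; simp
  · nlinarith

theorem ch_mono {a b : ℕ} (h : a ≤ b) : (a + 1).choose 2 ≤ (b + 1).choose 2 :=
  Nat.choose_le_choose 2 (by omega)

theorem triZ_full (d : ℕ) : triZ d (d + 1) = triD 0 d := by
  unfold triZ
  apply filter_true_of_mem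
  intro x hx
  rw [mem_triD] at hx
  omega

theorem fuInd (hFU : FUc) (A : Finset ℕ) (m : ℕ → ℕ) (M μ δ Lg d h W : ℕ)
    (hA : ∀ k ∈ A, 1 ≤ m k ∧ m k ≤ M) (h1 : μ ≤ M) (h2 : 128 * μ ≤ 2 ^ Lg) (h3 : 1 ≤ h)
    (h4 : h ≤ d + 1) (h5 : 200 * (d + 1 - h) ≤ h) (h6 : 2 ^ 120 * Lg ^ 3 * M ≤ h)
    (h7 : h ≤ 28 * μ ^ 2) (h8 : 2 ^ 60 * Lg ^ 2 * δ ≤ μ)
    (hW : ∑ k ∈ A, (m k + 1).choose 2 + W = (triZ d h).card) (hW1 : 1 ≤ W) (hW2 : W ≤ 2 * h)
    (hW3 : 2 ^ 80 * Lg ^ 2 * h ≤ μ * W)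
    (hc : 62 * M * (d + 1) ≤ ∑ k ∈ A.filter (fun k => μ ≤ m k + δ ∧ m k ≤ μ),
      (m k + 1).choose 2) : Ind (triZ d h) (rows m A) := by
  have hcast : |((triZ d h).card : ℤ) - ∑ k ∈ A, ((m k + 1).choose 2 : ℤ)| = W := by
    rw [← hW]
    push_cast
    rw [add_sub_cancel_left]
    exact abs_of_nonneg (by positivity)
  rcases hFU A m M μ δ Lg d h W hA h1 h2 h3 h4 h5 h6 h7 h8 hcast hW2 hW3 hc with h | h
  · exact h.2
  · exact absurd h.1 (by omega)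

theorem fuInj (hFU : FUc) (A : Finset ℕ) (m : ℕ → ℕ) (M μ δ Lg d h W : ℕ)
    (hA : ∀ k ∈ A, 1 ≤ m k ∧ m k ≤ M) (h1 : μ ≤ M) (h2 : 128 * μ ≤ 2 ^ Lg) (h3 : 1 ≤ h)
    (h4 : h ≤ d + 1) (h5 : 200 * (d + 1 - h) ≤ h) (h6 : 2 ^ 120 * Lg ^ 3 * M ≤ h)
    (h7 : h ≤ 28 * μ ^ 2) (h8 : 2 ^ 60 * Lg ^ 2 * δ ≤ μ)
    (hW : (triZ d h).card + W = ∑ k ∈ A, (m k + 1).choose 2) (hW1 : 1 ≤ W) (hW2 : W ≤ 2 * h)
    (hW3 : 2 ^ 80 * Lg ^ 2 * h ≤ μ * W)
    (hc : 62 * M * (d + 1) ≤ ∑ k ∈ A.filter (fun k => μ ≤ m k + δ ∧ m k ≤ μ),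
      (m k + 1).choose 2) : Inj (triZ d h) (rows m A) := by
  have hcast : |((triZ d h).card : ℤ) - ∑ k ∈ A, ((m k + 1).choose 2 : ℤ)| = W := by
    have : ∑ k ∈ A, ((m k + 1).choose 2 : ℤ) = ((triZ d h).card : ℤ) + W := by
      exact_mod_cast hW.symm
    rw [this, sub_add_cancel_left, abs_neg]
    exact abs_of_nonneg (by positivity)
  rcases hFU A m M μ δ Lg d h W hA h1 h2 h3 h4 h5 h6 h7 h8 hcast hW2 hW3 hc with h | h
  · exact absurd h.1 (by omega)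
  · exact h.2

theorem num1 (d D s1 t Y : ℕ) (h1 : 300 * D ≤ d) (h2 : s1 ^ 2 ≤ t) (h3 : t ≤ D ^ 2 + 130 * Y)
    (h4 : 2 ^ 399 * Y ≤ d ^ 2) (h5 : 1 ≤ d) : 299 * s1 ≤ d := by
  by_contra h
  push Not at h
  have e1 : d ^ 2 < 89401 * s1 ^ 2 := by nlinarith
  have e2 : 90000 * D ^ 2 ≤ d ^ 2 := by
    have := Nat.pow_le_pow_left h1 2
    rw [mul_pow] at this
    exact this
  have e3 : 1 ≤ d ^ 2 := Nat.one_le_pow _ _ h5
  generalize d ^ 2 = d2 at *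
  generalize D ^ 2 = D2 at *
  generalize s1 ^ 2 = s2 at *
  omega

theorem num3 (d D s t Y : ℕ) (h1 : 300 * D ≤ d) (h2 : s * (s - 1) ≤ t) (h3 : t ≤ D ^ 2 + 144 * Y)
    (h4 : 2 ^ 399 * Y ≤ d ^ 2) (h5 : 2 ^ 100 ≤ d) : 298 * s ≤ d := by
  by_contra h
  push Not at h
  have h6 : 1 ≤ s := by omega
  obtain ⟨u, rfl⟩ : ∃ u, s = u + 1 := ⟨s - 1, by omega⟩
  have e0 : u ^ 2 ≤ t := by
    simp only [Nat.add_sub_cancel] at h2
    nlinarith
  have e1 : d ≤ 298 * u + 297 := by omega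
  have e2 : d ^ 2 ≤ 88804 * u ^ 2 + 594 * d := by
    have : (d - 297) ^ 2 ≤ (298 * u) ^ 2 := Nat.pow_le_pow_left (by omega) 2
    obtain ⟨v, hv⟩ : ∃ v, d = v + 297 := ⟨d - 297, by omega⟩
    subst hv
    rw [Nat.add_sub_cancel] at this
    nlinarith
  have e3 : 90000 * D ^ 2 ≤ d ^ 2 := by
    have := Nat.pow_le_pow_left h1 2
    rw [mul_pow] at this
    exact this
  have e4 : 2 ^ 100 * d ≤ d ^ 2 := by
    rw [pow_two d]
    exact Nat.mul_le_mul_right d h5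
  generalize d ^ 2 = d2 at *
  generalize D ^ 2 = D2 at *
  generalize u ^ 2 = u2 at *
  norm_num at h4 e4 h5
  omega

/-- the numbers at the start -/
theorem lg_facts (M μ : ℕ) (hM : 1 ≤ M) (h : μ ≤ M) : 10 ≤ lg M ∧ 128 * μ ≤ 2 ^ lg M := by
  refine ⟨by unfold lg; omega, ?_⟩
  unfold lg
  have h1 : M < 2 ^ (Nat.log 2 M + 1) := Nat.lt_pow_succ_log_self (by norm_num) M
  have h2 : (2 : ℕ) ^ (Nat.log 2 M + 10) = 2 ^ (Nat.log 2 M + 1) * 512 := by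
    rw [show Nat.log 2 M + 10 = (Nat.log 2 M + 1) + 9 by ring, pow_add]
    norm_num
  rw [h2]
  omega

theorem sum_filter_mono' (m : ℕ → ℕ) {s t : Finset ℕ} (h : s ⊆ t) :
    ∑ k ∈ s, (m k + 1).choose 2 ≤ ∑ k ∈ t, (m k + 1).choose 2 :=
  sum_le_sum_of_subset h

/-- subtotal with a square -/
theorem sub2 (M T : ℕ) (hM : 1 ≤ M) (m : ℕ → ℕ) (s : Finset ℕ) (hm : ∀ k ∈ s, m k ≤ M)
    (h : T ≤ ∑ k ∈ s, (m k + 1).choose 2) : ∃ s' ⊆ s, T ≤ ∑ k ∈ s', (m k + 1).choose 2 ∧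
      ∑ k ∈ s', (m k + 1).choose 2 < T + M ^ 2 := by
  obtain ⟨s', h1, h2, h3⟩ := Pool.Agent.Helper43.Ah.subtotal M T hM m s hm h
  exact ⟨s', h1, h2, h3.trans_le (by have := ch_le_sq M; omega)⟩

theorem sum_sdiff' (m : ℕ → ℕ) {s t : Finset ℕ} (h : t ⊆ s) :
    ∑ k ∈ s \ t, (m k + 1).choose 2 + ∑ k ∈ t, (m k + 1).choose 2 =
      ∑ k ∈ s, (m k + 1).choose 2 := sum_sdiff h

/-- the end of the proof: the four applications of the window theorem and the gluing -/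
theorem glue (hFU : FUc) (hGL : GLc) (hF1 : GoalF1Z) (A A' : Finset ℕ) (m : ℕ → ℕ)
    (M μ δ d s W1 : ℕ) (hA : ∀ k ∈ A, 1 ≤ m k ∧ m k ≤ M) (hsub : A' ⊆ A) (hM : 1 ≤ M)
    (hd : 2 ^ 400 * lg M ^ 3 * M ≤ d) (hμ : μ ≤ M) (hdμ : d < 28 * μ ^ 2)
    (h8 : 2 ^ 60 * lg M ^ 2 * δ ≤ μ) (hs : 298 * s ≤ d) (hs' : d ≤ 302 * s)
    (hq : 2 ^ 80 * lg M ^ 2 * (d + 1) ≤ μ * W1) (hW1 : 1 ≤ W1)
    (hs1 : s * (s - 1) + 2 * (2 * W1 + 2) ≤ 2 * ∑ k ∈ A', (m k + 1).choose 2)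
    (hs2 : 2 * ∑ k ∈ A', (m k + 1).choose 2 + 2 * (2 * W1 + 2) ≤ s * (s + 1))
    (hlo : (d + 2).choose 2 ≤ ∑ k ∈ A, (m k + 1).choose 2)
    (hhi : ∑ k ∈ A, (m k + 1).choose 2 < (d + 2).choose 2 + W1)
    (hcA : 62 * M * (d + 1) ≤ ∑ k ∈ A'.filter (fun k => μ ≤ m k + δ ∧ m k ≤ μ),
      (m k + 1).choose 2)
    (hcB : 62 * M * (d + 1) ≤ ∑ k ∈ (A \ A').filter (fun k => μ ≤ m k + δ ∧ m k ≤ μ),
      (m k + 1).choose 2) : Inj (triD 0 d) (rows m A) := by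
  obtain ⟨hL10, h128⟩ := lg_facts M μ hM hμ
  have hL3 : 1 ≤ lg M ^ 3 := Nat.one_le_pow _ _ (by omega)
  have hP : 1 ≤ lg M ^ 3 * M := Nat.mul_pos hL3 hM
  have hd' : 2 ^ 400 * (lg M ^ 3 * M) ≤ d := by rw [← mul_assoc]; exact hd
  obtain ⟨P, hPdef⟩ : ∃ P, P = lg M ^ 3 * M := ⟨_, rfl⟩
  rw [← hPdef] at hP hd'
  have h6 : ∀ h, 2 ^ 120 * P ≤ h → 2 ^ 120 * lg M ^ 3 * M ≤ h := by
    intro h hh
    rw [mul_assoc, ← hPdef]
    exact hh
  have hq' : ∀ h W, h ≤ d + 1 → W1 ≤ W → 2 ^ 80 * lg M ^ 2 * h ≤ μ * W := by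
    intro h W hh hW
    exact (Nat.mul_le_mul_left _ hh).trans (hq.trans (Nat.mul_le_mul_left _ hW))
  have hc62 : ∀ e, e ≤ d → 62 * M * (e + 1) ≤ 62 * M * (d + 1) := fun e he =>
    Nat.mul_le_mul_left _ (by omega)
  have hdμ' : ∀ h, h ≤ d + 1 → h ≤ 28 * μ ^ 2 := by
    intro h hh
    omega
  have hs2' : 2 ≤ s := by omega
  obtain ⟨r, rfl⟩ : ∃ r, s = r + 2 := ⟨s - 2, by omega⟩
  have hAB : A' ∪ (A \ A') = A := union_sdiff_of_subset hsub
  have htot := sum_sdiff' m hsub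
  have hA1 : ∀ k ∈ A', 1 ≤ m k ∧ m k ≤ M := fun k hk => hA k (hsub hk)
  have hB1 : ∀ k ∈ A \ A', 1 ≤ m k ∧ m k ≤ M := fun k hk => hA k (mem_sdiff.1 hk).1
  have c1 := (hF1 1 (r + 1) (r + 1 + 1) le_rfl (by omega) le_rfl).2.2.2.2
  have c2 := (hF1 1 r (r + 1) le_rfl (by omega) le_rfl).2.2.2.2
  have c3 := (hF1 1 d (d - (r + 1) + 1) le_rfl (by omega) (by omega)).2.2.2.2
  have c4 := (hF1 1 d (d - (r + 1)) le_rfl (by omega) (by omega)).2.2.2.2
  have e1 : r + 1 + 1 - (r + 1 + 1) = 0 := by omega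
  have e2 : r + 1 - (r + 1) = 0 := by omega
  have e3 : d + 1 - (d - (r + 1) + 1) = r + 1 := by omega
  have e3' : d + 2 - (d - (r + 1) + 1) = r + 2 := by omega
  have e4 : d + 1 - (d - (r + 1)) = r + 2 := by omega
  have e4' : d + 2 - (d - (r + 1)) = r + 3 := by omega
  rw [e1, zero_mul, add_zero] at c1
  rw [e2, zero_mul, add_zero] at c2
  rw [e3, e3'] at c3
  rw [e4, e4'] at c4
  have hK := two_ch (d + 1)
  have hX : (r + 2) * (r + 3) = (r + 1) * (r + 2) + 2 * (r + 2) := by ring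
  have hs1' : (r + 2) * (r + 2 - 1) = (r + 1) * (r + 2) := by
    rw [show r + 2 - 1 = r + 1 by omega, mul_comm]
  rw [hs1'] at hs1
  have hs2'' : (r + 2) * (r + 2 + 1) = (r + 2) * (r + 3) := rfl
  rw [hs2''] at hs2
  have hc1' : (r + 1 + 1) * (r + 1 + 2) = (r + 2) * (r + 3) := rfl
  rw [hc1'] at c1
  have hKd : (d + 1 + 1).choose 2 = (d + 2).choose 2 := rfl
  rw [hKd] at hK
  have hK' : (d + 1) * (d + 1 + 1) = (d + 1) * (d + 2) := rfl
  rw [hK'] at hK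
  have z1 : triD 0 (r + 1) = triZ (r + 1) (r + 1 + 1) := (triZ_full _).symm
  have z2 : triD 0 (r + 1 - 1) = triZ r (r + 1) := (triZ_full _).symm
  have hcard : (triD 0 d).card = (d + 2).choose 2 := by
    have c5 := (hF1 1 d (d + 1) le_rfl (by omega) le_rfl).2.2.2.2
    rw [Nat.sub_self, zero_mul, add_zero, triZ_full] at c5
    omega
  have hrows : (rows m A).card = ∑ k ∈ A, (m k + 1).choose 2 := Helper18.Cusp.card_rows m A
  have key := hGL m d (r + 1) A' (A \ A') (by omega) (by omega) disjoint_sdiff ?_ ?_ ?_ ?_ ?_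
  · rw [hAB] at key
    exact key
  · rw [z1]
    apply fuInd hFU A' m M μ δ (lg M) (r + 1) (r + 1 + 1)
      ((triZ (r + 1) (r + 1 + 1)).card - ∑ k ∈ A', (m k + 1).choose 2) hA1 hμ h128 (by omega)
      le_rfl (by omega) (h6 _ (by omega)) (hdμ' _ (by omega)) h8 (by omega) (by omega) (by omega)
      (hq' _ _ (by omega) (by omega)) ((hc62 _ (by omega)).trans hcA)
  · rw [z2]
    apply fuInj hFU A' m M μ δ (lg M) r (r + 1)
      (∑ k ∈ A', (m k + 1).choose 2 - (triZ r (r + 1)).card) hA1 hμ h128 (by omega)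
      le_rfl (by omega) (h6 _ (by omega)) (hdμ' _ (by omega)) h8 (by omega) (by omega) (by omega)
      (hq' _ _ (by omega) (by omega)) ((hc62 _ (by omega)).trans hcA)
  · apply fuInd hFU (A \ A') m M μ δ (lg M) d (d - (r + 1) + 1)
      ((triZ d (d - (r + 1) + 1)).card - ∑ k ∈ A \ A', (m k + 1).choose 2) hB1 hμ h128 (by omega)
      (by omega) (by omega) (h6 _ (by omega)) (hdμ' _ (by omega)) h8 (by omega) (by omega)
      (by omega) (hq' _ _ (by omega) (by omega)) hcB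
  · apply fuInj hFU (A \ A') m M μ δ (lg M) d (d - (r + 1))
      (∑ k ∈ A \ A', (m k + 1).choose 2 - (triZ d (d - (r + 1))).card) hB1 hμ h128 (by omega)
      (by omega) (by omega) (h6 _ (by omega)) (hdμ' _ (by omega)) h8 (by omega) (by omega)
      (by omega) (hq' _ _ (by omega) (by omega)) hcB
  · rw [hAB, hcard, hrows]
    exact hlo

/-- Case I of the core statement -/
theorem caseI (hFU : FUc) (hSEL : SELc) (hGL : GLc) (hF1 : GoalF1Z) : CaseI := by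
  classical
  intro A m M μ δ d hA hd hμ hdμ h8 hcl hlo hhi
  have hμ1 : 1 ≤ μ := by
    rcases Nat.eq_zero_or_pos μ with h0 | h0
    · subst h0; simp at hdμ
    · exact h0
  have hM : 1 ≤ M := by omega
  obtain ⟨hL10, h128⟩ := lg_facts M μ hM hμ
  have hL3 : 1 ≤ lg M ^ 3 := Nat.one_le_pow _ _ (by omega)
  have hL2 : 1 ≤ lg M ^ 2 := Nat.one_le_pow _ _ (by omega)
  have hP : 1 ≤ lg M ^ 3 * M := Nat.mul_pos hL3 hM
  have hMP : M ≤ lg M ^ 3 * M := Nat.le_mul_of_pos_left _ hL3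
  have hμP : lg M ^ 3 * μ ≤ lg M ^ 3 * M := Nat.mul_le_mul_left _ hμ
  have hd' : 2 ^ 400 * (lg M ^ 3 * M) ≤ d := by rw [← mul_assoc]; exact hd
  have hd400 : 2 ^ 400 * M ≤ d := by omega
  obtain ⟨W1, hW1⟩ : ∃ W1, W1 = (2 ^ 80 * lg M ^ 2 * (d + 1)) / μ + 1 := ⟨_, rfl⟩
  have hW1p : 1 ≤ W1 := by
    rw [hW1]
    exact Nat.le_add_left 1 _
  have hqW : 2 ^ 80 * lg M ^ 2 * (d + 1) ≤ μ * W1 := by
    have := Nat.lt_mul_div_succ (2 ^ 80 * lg M ^ 2 * (d + 1)) hμ1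
    rw [← hW1] at this
    exact this.le
  have hqW2 : μ * W1 ≤ 2 ^ 80 * lg M ^ 2 * (d + 1) + μ := by
    have := Nat.mul_div_le (2 ^ 80 * lg M ^ 2 * (d + 1)) μ
    rw [hW1, mul_add, mul_one]
    omega
  obtain ⟨Y, hY⟩ : ∃ Y, Y = M * (d + 1) := ⟨_, rfl⟩
  have hcl' : 62 * M * (d + 1) ≤ 1000 * M * (d + 1) :=
    Nat.mul_le_mul_right _ (Nat.mul_le_mul_right _ (by norm_num))
  rcases Nat.lt_or_ge (∑ k ∈ A, (m k + 1).choose 2) ((d + 2).choose 2 + W1) with hlt | hge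
  swap
  · -- many conditions
    have c := (hF1 1 d (d + 1) le_rfl (by omega) le_rfl).2.2.2.2
    rw [Nat.sub_self, zero_mul, add_zero] at c
    have hK := two_ch (d + 1)
    have hKd : (d + 1 + 1).choose 2 = (d + 2).choose 2 := rfl
    have hK' : (d + 1) * (d + 1 + 1) = (d + 1) * (d + 2) := rfl
    rw [hKd, hK'] at hK
    rw [← triZ_full d]
    apply fuInj hFU A m M μ δ (lg M) d (d + 1)
      (∑ k ∈ A, (m k + 1).choose 2 - (triZ d (d + 1)).card) hA hμ h128 (by omega)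
      le_rfl (by omega) (by rw [mul_assoc]; omega) (by omega) h8 (by omega) (by omega) (by omega)
      ?_ (hcl'.trans hcl)
    exact hqW.trans (Nat.mul_le_mul_left _ (by omega))
  · -- the sets
    have hY1 : 62 * M * (d + 1) = 62 * Y := by rw [hY]; ring
    have hY2 : 1000 * M * (d + 1) = 1000 * Y := by rw [hY]; ring
    rw [hY2] at hcl
    have hMd : M ^ 2 ≤ Y := by rw [hY, pow_two]; exact Nat.mul_le_mul_left _ (by omega)
    have hYd : 2 ^ 399 * Y ≤ d ^ 2 := by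
      have h1 : 2 ^ 400 * M * (d + 1) ≤ d * (d + 1) := Nat.mul_le_mul_right _ hd400
      have h2 : 2 ^ 400 * M * (d + 1) = 2 * (2 ^ 399 * Y) := by
        rw [hY, show (2 : ℕ) ^ 400 = 2 * 2 ^ 399 from pow_succ' 2 399]
        generalize (2 : ℕ) ^ 399 = c
        ring
      have h3 : d * (d + 1) = d ^ 2 + d := by ring
      have h4 : d ≤ d ^ 2 := by rw [pow_two]; exact Nat.le_mul_of_pos_left _ (by omega)
      omega
    obtain ⟨Cl, hCl⟩ : ∃ Cl, Cl = A.filter (fun k => μ ≤ m k + δ ∧ m k ≤ μ) := ⟨_, rfl⟩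
    rw [← hCl] at hcl
    have hClA : Cl ⊆ A := by rw [hCl]; exact filter_subset _ _
    have hClμ : ∀ k ∈ Cl, μ ≤ m k + δ ∧ m k ≤ μ := by
      intro k hk
      rw [hCl, mem_filter] at hk
      exact hk.2
    have hClM : ∀ k ∈ Cl, m k ≤ M := fun k hk => (hA k (hClA hk)).2
    obtain ⟨CA, hCA, tCA1, tCA2⟩ := sub2 M (62 * Y) hM m Cl hClM (by omega)
    have tCl1 := sum_sdiff' m hCA
    obtain ⟨CB, hCB, tCB1, tCB2⟩ := sub2 M (62 * Y) hM m (Cl \ CA)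
      (fun k hk => hClM k (mem_sdiff.1 hk).1) (by omega)
    have tCl2 := sum_sdiff' m hCB
    -- the set `F`
    obtain ⟨n, hn⟩ : ∃ n, n = 6 * d / μ + 1 := ⟨_, rfl⟩
    have hnμ : 6 * d ≤ μ * n := by
      have := Nat.lt_mul_div_succ (6 * d) hμ1
      rw [← hn] at this
      exact this.le
    have hnμ2 : μ * n ≤ 6 * d + μ := by
      have := Nat.mul_div_le (6 * d) μ
      rw [hn, mul_add, mul_one]
      omega
    have hcardF : n ≤ ((Cl \ CA) \ CB).card := by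
      by_contra hcon
      push Not at hcon
      have h1 : ∑ k ∈ (Cl \ CA) \ CB, (m k + 1).choose 2 ≤ ((Cl \ CA) \ CB).card * μ ^ 2 := by
        rw [← smul_eq_mul]
        apply sum_le_card_nsmul
        intro k hk
        exact (ch_mono (hClμ k (mem_sdiff.1 (mem_sdiff.1 hk).1).1).2).trans (ch_le_sq μ)
      have h2 : ((Cl \ CA) \ CB).card * μ ^ 2 ≤ n * μ ^ 2 :=
        Nat.mul_le_mul_right _ (by omega)
      have h3 : n * μ ^ 2 = (μ * n) * μ := by ring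
      have h4 : (μ * n) * μ ≤ (6 * d + μ) * M := Nat.mul_le_mul hnμ2 hμ
      have h5 : (6 * d + μ) * M ≤ (7 * (d + 1)) * M := Nat.mul_le_mul_right _ (by omega)
      have h6 : (7 * (d + 1)) * M = 7 * Y := by rw [hY]; ring
      have hYp : 1 ≤ Y := by rw [hY]; exact Nat.mul_pos hM (by omega)
      omega
    obtain ⟨F, hF, hFn⟩ := exists_subset_card_eq hcardF
    have hFCl : F ⊆ Cl := hF.trans (sdiff_subset.trans sdiff_subset)
    have tF : ∑ k ∈ F, (m k + 1).choose 2 ≤ 7 * Y := by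
      have h1 : ∑ k ∈ F, (m k + 1).choose 2 ≤ F.card * μ ^ 2 := by
        rw [← smul_eq_mul]
        apply sum_le_card_nsmul
        intro k hk
        exact (ch_mono (hClμ k (hFCl hk)).2).trans (ch_le_sq μ)
      rw [hFn] at h1
      have h3 : n * μ ^ 2 = (μ * n) * μ := by ring
      have h4 : (μ * n) * μ ≤ (6 * d + μ) * M := Nat.mul_le_mul hnμ2 hμ
      have h5 : (6 * d + μ) * M ≤ (7 * (d + 1)) * M := Nat.mul_le_mul_right _ (by omega)
      have h6 : (7 * (d + 1)) * M = 7 * Y := by rw [hY]; ring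
      omega
    -- the set `U`
    have dCACB : Disjoint CA CB := by
      rw [disjoint_left]
      intro k h1 h2
      exact (mem_sdiff.1 (hCB h2)).2 h1
    have dCAF : Disjoint CA F := by
      rw [disjoint_left]
      intro k h1 h2
      exact (mem_sdiff.1 (mem_sdiff.1 (hF h2)).1).2 h1
    have dCBF : Disjoint CB F := by
      rw [disjoint_left]
      intro k h1 h2
      exact (mem_sdiff.1 (hF h2)).2 h1
    obtain ⟨E, hE⟩ : ∃ E, E = (CA ∪ CB) ∪ F := ⟨_, rfl⟩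
    have hEA : E ⊆ A := by
      rw [hE]
      exact union_subset (union_subset (hCA.trans hClA)
        ((hCB.trans sdiff_subset).trans hClA)) (hFCl.trans hClA)
    have tE : ∑ k ∈ E, (m k + 1).choose 2 = ∑ k ∈ CA, (m k + 1).choose 2 +
        ∑ k ∈ CB, (m k + 1).choose 2 + ∑ k ∈ F, (m k + 1).choose 2 := by
      rw [hE, sum_union (disjoint_union_left.2 ⟨dCAF, dCBF⟩), sum_union dCACB]
    have tAE := sum_sdiff' m hEA
    obtain ⟨D, hD⟩ : ∃ D, D = d / 300 := ⟨_, rfl⟩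
    have hD1 : 300 * D ≤ d := by omega
    have hD2 : d < 300 * D + 300 := by omega
    have hK := two_ch (d + 1)
    have hKd : (d + 1 + 1).choose 2 = (d + 2).choose 2 := rfl
    have hK' : (d + 1) * (d + 1 + 1) = d ^ 2 + 3 * d + 2 := by ring
    rw [hKd, hK'] at hK
    have hDd : 90000 * D ^ 2 ≤ d ^ 2 := by
      have := Nat.pow_le_pow_left hD1 2
      rw [mul_pow] at this
      exact this
    have hd2 : 2 ^ 100 * d ≤ d ^ 2 := by
      rw [pow_two d]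
      exact Nat.mul_le_mul_right d (by omega)
    obtain ⟨U, hU, tU1, tU2⟩ := sub2 M ((D ^ 2 + 1) / 2) hM m (A \ E)
      (fun k hk => (hA k (mem_sdiff.1 hk).1).2) (by omega)
    have hUA : U ⊆ A := hU.trans sdiff_subset
    have hUE : ∀ k ∈ U, k ∉ E := fun k hk => (mem_sdiff.1 (hU hk)).2
    have dCAU : Disjoint CA U := by
      rw [disjoint_left]
      intro k h1 h2
      exact hUE k h2 (by rw [hE]; exact mem_union_left _ (mem_union_left _ h1))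
    have tA0 : ∑ k ∈ CA ∪ U, (m k + 1).choose 2 = ∑ k ∈ CA, (m k + 1).choose 2 +
        ∑ k ∈ U, (m k + 1).choose 2 := sum_union dCAU
    have dA0F : Disjoint (CA ∪ U) F := by
      rw [disjoint_union_left]
      refine ⟨dCAF, ?_⟩
      rw [disjoint_left]
      intro k h1 h2
      exact hUE k h1 (by rw [hE]; exact mem_union_right _ h2)
    -- the number `s1`
    obtain ⟨s1, hs1⟩ : ∃ s1, s1 = Nat.sqrt (2 * ∑ k ∈ CA ∪ U, (m k + 1).choose 2) := ⟨_, rfl⟩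
    have hs1a : s1 ^ 2 ≤ 2 * ∑ k ∈ CA ∪ U, (m k + 1).choose 2 := by
      rw [hs1]; exact Nat.sqrt_le' _
    have hs1b : 2 * ∑ k ∈ CA ∪ U, (m k + 1).choose 2 ≤ (s1 + 1) ^ 2 := by
      rw [hs1]; exact (Nat.lt_succ_sqrt' _).le
    have hs1c : D ≤ s1 := by
      rw [hs1, Nat.le_sqrt', tA0]
      omega
    have hs1d : 299 * s1 ≤ d := by
      apply num1 d D s1 _ Y hD1 hs1a _ hYd (by omega)
      rw [tA0]
      omega
    have hs1e : d ≤ 301 * s1 := by omega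
    have hμ2 : 10 * s1 ≤ μ ^ 2 := by omega
    have hWs : μ * (2 * W1 + 2) ≤ 2 ^ 100 * lg M ^ 2 * s1 := by
      have h1 : μ * (2 * W1 + 2) = 2 * (μ * W1) + 2 * μ := by ring
      have h2 : 2 ^ 80 * lg M ^ 2 * (d + 1) ≤ 2 ^ 80 * lg M ^ 2 * (302 * s1) :=
        Nat.mul_le_mul_left _ (by omega)
      have h3 : 2 ^ 80 * lg M ^ 2 * (302 * s1) = 302 * 2 ^ 80 * (lg M ^ 2 * s1) := by ring
      have h4 : 2 ^ 100 * lg M ^ 2 * s1 = 2 ^ 100 * (lg M ^ 2 * s1) := by ring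
      have h5 : s1 ≤ lg M ^ 2 * s1 := Nat.le_mul_of_pos_left _ hL2
      rw [h1, h4]
      rw [h3] at h2
      omega
    obtain ⟨J, s, hJ, hs0, hsa, hsb⟩ := hSEL (CA ∪ U) F m μ δ (lg M) s1 (2 * W1 + 2) dA0F
      (fun k hk => hClμ k (hFCl hk)) hs1a hs1b hμ1 (by omega)
      (by rw [mul_assoc]; omega) hμ2 h128 h8 (by rw [hFn]; omega) hWs
    have tJ : ∑ k ∈ J, (m k + 1).choose 2 ≤ 7 * Y := (sum_filter_mono' m hJ).trans tF
    have tA' : ∑ k ∈ (CA ∪ U) ∪ J, (m k + 1).choose 2 = ∑ k ∈ CA ∪ U, (m k + 1).choose 2 +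
        ∑ k ∈ J, (m k + 1).choose 2 := sum_union (disjoint_of_subset_right hJ dA0F)
    have hss1 : s1 ≤ s := by
      by_contra hcon
      push Not at hcon
      have h1 : (s + 1) ^ 2 ≤ s1 ^ 2 := Nat.pow_le_pow_left hcon 2
      have h2 : (s + 1) ^ 2 = s * (s + 1) + s + 1 := by ring
      omega
    have hs298 : 298 * s ≤ d := by
      apply num3 d D s (2 * ∑ k ∈ (CA ∪ U) ∪ J, (m k + 1).choose 2) Y hD1 (by omega) _ hYd
        (by omega)
      rw [tA', tA0]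
      omega
    have hA'A : (CA ∪ U) ∪ J ⊆ A := union_subset (union_subset (hCA.trans hClA) hUA)
      (hJ.trans (hFCl.trans hClA))
    apply glue hFU hGL hF1 A ((CA ∪ U) ∪ J) m M μ δ d s W1 hA hA'A hM hd hμ hdμ h8 hs298
      (by omega) hqW hW1p hsa hsb hlo hlt
    · rw [hY1]
      refine tCA1.trans (sum_filter_mono' m ?_)
      intro k hk
      rw [mem_filter]
      exact ⟨mem_union_left _ (mem_union_left _ hk), hClμ k (hCA hk)⟩
    · rw [hY1]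
      refine tCB1.trans (sum_filter_mono' m ?_)
      intro k hk
      have hkCl : k ∈ Cl := (mem_sdiff.1 (hCB hk)).1
      rw [mem_filter, mem_sdiff]
      refine ⟨⟨hClA hkCl, ?_⟩, hClμ k hkCl⟩
      intro hmem
      rcases mem_union.1 hmem with h | h
      · rcases mem_union.1 h with h | h
        · exact (disjoint_left.1 dCACB) h hk
        · exact hUE k h (by rw [hE]; exact mem_union_left _ (mem_union_right _ hk))
      · exact (disjoint_left.1 dCBF) hk (hJ h)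

theorem goalCI : GoalCI := caseI

end Pool.Agent.Helper93.UW
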